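import Pool.Agent.R414.DN.Exf
import Pool.Agent.R414.DS.Fin3

/-!
The exact order of the number of plane curves of degree at most `d` and height at most `H` that
have an integer point.
-/

set_option autoImplicit false

open Finset

namespace Pool.Agent.Results.MP_821da1_nt.CurvesWithIntegerPoints

open Pool.Agent.R414.DN

/-- the proportion needed for the lower bound -/
lemma lower {D H O : ℝ} {n : ℕ} (hn : 1 ≤ n) (hH : 1 ≤ H) (hD : 1 ≤ D) (hO : 1 ≤ O)
    (h : (2 * H + 1) ^ n ≤ O + D * (2 * H + 1) ^ (n - 1)) :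
    1 / (2 * (2 * D) ^ n) * H ^ n ≤ O := by
  obtain ⟨m, rfl⟩ : ∃ m, n = m + 1 := ⟨n - 1, by omega⟩
  rw [Nat.add_sub_cancel] at h
  have hH0 : 0 < H := by linarith
  have hDp : 1 ≤ (2 * D) ^ (m + 1) := one_le_pow₀ (by linarith)
  have hDp0 : 0 < (2 * D) ^ (m + 1) := by positivity
  have hX : H ^ (m + 1) ≤ (2 * H + 1) ^ (m + 1) := pow_le_pow_left₀ hH0.le (by linarith) _
  have hX0 : 0 ≤ H ^ (m + 1) := by positivity
  rw [div_mul_eq_mul_div, one_mul, div_le_iff₀ (by positivity)]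
  rcases le_or_gt (2 * D) (2 * H + 1) with h1 | h1
  · have h2 : 2 * D * (2 * H + 1) ^ m ≤ (2 * H + 1) ^ (m + 1) := by
      rw [pow_succ, mul_comm]
      exact mul_le_mul_of_nonneg_left h1 (by positivity)
    have h3 : (2 * H + 1) ^ (m + 1) ≤ 2 * O := by linarith
    have h4 : 2 * O ≤ O * (2 * (2 * D) ^ (m + 1)) := by
      have : O * 1 ≤ O * (2 * D) ^ (m + 1) := mul_le_mul_of_nonneg_left hDp (by linarith)
      linarith
    linarith
  · have h2 : H ^ (m + 1) ≤ (2 * D) ^ (m + 1) :=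
      pow_le_pow_left₀ hH0.le (by linarith) _
    have h3 : 1 * (2 * (2 * D) ^ (m + 1)) ≤ O * (2 * (2 * D) ^ (m + 1)) :=
      mul_le_mul_of_nonneg_right hO (by positivity)
    linarith

lemma fv_zero {d : ℕ} (a : Cf d) : Fv (co a) d 0 0 = co a 0 0 := by
  unfold Fv
  rw [sum_eq_single_of_mem 0 (mem_range.2 (Nat.succ_pos d))]
  · simp
  · intro k _ hk
    apply sum_eq_zero
    intro i hi
    rw [mem_range] at hi
    rcases Nat.eq_zero_or_pos i with h1 | h1
    · rw [h1, Nat.sub_zero, zero_pow hk, mul_zero, mul_zero]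
    · rw [zero_pow h1.ne', zero_mul, mul_zero]

theorem result (d : ℕ) (hd : 6 ≤ d) : ∃ c C : ℝ, 0 < c ∧ ∀ H : ℕ, 1 ≤ H →
    c * (H : ℝ) ^ ((d + 1) * (d + 2) / 2 - 1) ≤
      (Set.ncard {F : MvPolynomial (Fin 2) ℤ | F.totalDegree ≤ d ∧ (∀ m, |F.coeff m| ≤ (H : ℤ)) ∧
        (Irreducible (MvPolynomial.map (Int.castRingHom (AlgebraicClosure ℚ)) F) ∧
        ∃ x y : ℤ, MvPolynomial.eval ![x, y] F = 0)} : ℝ) ∧
    (Set.ncard {F : MvPolynomial (Fin 2) ℤ | F.totalDegree ≤ d ∧ (∀ m, |F.coeff m| ≤ (H : ℤ)) ∧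
        ∃ x y : ℤ, MvPolynomial.eval ![x, y] F = 0} : ℝ) ≤
      C * (H : ℝ) ^ ((d + 1) * (d + 2) / 2 - 1) := by
  classical
  have hfil : ∀ d H : ℕ, ((ibox ↥(I d) H).filter fun a =>
      ∃ x y : ℤ, MvPolynomial.eval ![x, y] (poly a) = 0) = zS d H := by
    intro d H
    ext a
    rw [mem_filter, mem_zS]
    simp only [eval_poly]
  obtain ⟨C, hC0, hC⟩ := Pool.Agent.R414.DS.card_zS_sharp hd
  obtain ⟨D, hD⟩ : ∃ D : ℝ, D = 2 + 4 * d * (d + 1) * 3 ^ d * (3 * cR d) ^ d := ⟨_, rfl⟩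
  have hD1 : 1 ≤ D := by
    have : (0 : ℝ) ≤ 4 * d * (d + 1) * 3 ^ d * (3 * cR d) ^ d := by positivity
    linarith
  have hMM : 1 ≤ MM d - 1 := by
    rw [MM_eq]
    have h1 : 7 * 8 ≤ (d + 1) * (d + 2) := Nat.mul_le_mul (by omega) (by omega)
    omega
  refine ⟨1 / (2 * (2 * D) ^ (MM d - 1)), C * 3 ^ (MM d - 1), by positivity, fun H hH => ?_⟩
  have hH' : (1 : ℝ) ≤ H := by exact_mod_cast hH
  rw [ncard_box d H (fun F => Irreducible (MvPolynomial.map
      (Int.castRingHom (AlgebraicClosure ℚ)) F) ∧ ∃ x y : ℤ, MvPolynomial.eval ![x, y] F = 0),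
    ncard_box d H (fun F => ∃ x y : ℤ, MvPolynomial.eval ![x, y] F = 0), hfil, ← MM_eq]
  constructor
  · have hoS := card_oS (by omega : 4 ≤ d) hH
    rw [← hD] at hoS
    have s3 : oS d H ⊆ ((ibox ↥(I d) H).filter fun a => Irreducible (MvPolynomial.map
        (Int.castRingHom (AlgebraicClosure ℚ)) (poly a)) ∧ ∃ x y : ℤ,
          MvPolynomial.eval ![x, y] (poly a) = 0) := by
      intro a ha
      rw [mem_filter]
      refine ⟨(mem_oS.1 ha).1, oS_irr (by omega) ha, 0, 0, ?_⟩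
      rw [eval_poly, fv_zero]
      exact (mem_oS.1 ha).2.1
    have s4 : ((oS d H).card : ℝ) ≤ (((ibox ↥(I d) H).filter fun a => Irreducible
        (MvPolynomial.map (Int.castRingHom (AlgebraicClosure ℚ)) (poly a)) ∧ ∃ x y : ℤ,
          MvPolynomial.eval ![x, y] (poly a) = 0).card : ℝ) := by
      exact_mod_cast card_le_card s3
    -- the line `x = 0`
    have s5 : (1 : ℝ) ≤ (((ibox ↥(I d) H).filter fun a => Irreducible
        (MvPolynomial.map (Int.castRingHom (AlgebraicClosure ℚ)) (poly a)) ∧ ∃ x y : ℤ,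
          MvPolynomial.eval ![x, y] (poly a) = 0).card : ℝ) := by
      have t1 : (MvPolynomial.X 0 : MvPolynomial (Fin 2) ℤ).totalDegree ≤ d := by
        rw [MvPolynomial.totalDegree_X]
        omega
      have t2 : ∀ m, |(MvPolynomial.X 0 : MvPolynomial (Fin 2) ℤ).coeff m| ≤ (H : ℤ) := by
        intro m
        rw [MvPolynomial.coeff_X]
        split_ifs
        · simpa using hH
        · simp
      obtain ⟨a, ha, ha2⟩ := exists_vec t1 t2
      have h3 : a ∈ ((ibox ↥(I d) H).filter fun a => Irreducible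
          (MvPolynomial.map (Int.castRingHom (AlgebraicClosure ℚ)) (poly a)) ∧ ∃ x y : ℤ,
          MvPolynomial.eval ![x, y] (poly a) = 0) := by
        rw [mem_filter, ha2, MvPolynomial.map_X]
        exact ⟨ha, MvPolynomial.X_prime.irreducible, 0, 0, by simp⟩
      exact_mod_cast card_pos.2 ⟨a, h3⟩
    refine lower hMM hH' hD1 s5 ?_
    have h5 : MM d - 1 - 1 = MM d - 2 := by omega
    rw [h5]
    linarith
  · refine (hC H hH).trans ?_
    rw [mul_assoc, ← mul_pow]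
    exact mul_le_mul_of_nonneg_left
      (pow_le_pow_left₀ (by positivity) (by linarith) _) hC0

end Pool.Agent.Results.MP_821da1_nt.CurvesWithIntegerPoints
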