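import Pool.Agent.N656.LL.Fin

/-!
# The limit law of the integer point of a random plane curve with prescribed points at infinity

Let `φ` be a form of degree `d ≥ 10`, irreducible over `ℚ`. The curves `φ + R = 0`, where `R` has
degree at most `d - 1` and coefficients in `[-H, H]`, are the curves of degree `d` with prescribed
points at infinity. As `H → ∞` the number of those with an integer point is
`(∑ V(P) + o(1)) H ^ (d (d + 1) / 2 - 1)`, almost all of them have exactly one integer point, and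
the law of this point converges in total variation to an explicit law `μ` on `ℤ ^ 2` which does not
depend on `φ`. The tail of `μ` is of exact order `T ^ (-(d - 3))`. A function `B(H)` bounds the
integer points of almost all curves with an integer point if and only if it tends to infinity.
-/

set_option autoImplicit false

open MeasureTheory Filter Topology

namespace Pool.Agent.Results.MP_821da1_nt.LimitLaw

/-- the pairs `(i, j)` with `1 ≤ i + j ≤ d - 1` -/
abbrev Exponents (d : ℕ) : Type :=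
  {m : Fin d × Fin d // 1 ≤ (m.1 : ℕ) + m.2 ∧ (m.1 : ℕ) + m.2 < d}

/-- `V(x, y)`: the volume of the set of all `(u_ij)` with entries in `[-1, 1]`, indexed by the
exponents `(i, j)` with `1 ≤ i + j ≤ d - 1`, such that `|∑ u_ij x ^ i y ^ j| ≤ 1` -/
noncomputable def V (d : ℕ) (P : ℤ × ℤ) : ℝ :=
  volume.real {u : Exponents d → ℝ | (∀ m, |u m| ≤ 1) ∧
    |∑ m, u m * ((P.1 : ℝ) ^ (m.1.1 : ℕ) * (P.2 : ℝ) ^ (m.1.2 : ℕ))| ≤ 1}

/-- the probability measure on `ℤ × ℤ` with weights proportional to `V` -/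
noncomputable def μ (d : ℕ) (A : Set (ℤ × ℤ)) : ℝ := (∑' P : A, V d P) / ∑' P, V d P

/-- the polynomials `R` of degree at most `d - 1` with coefficients in `[-H, H]` -/
def Box (d H : ℕ) : Set (MvPolynomial (Fin 2) ℤ) :=
  {R | R.totalDegree ≤ d - 1 ∧ ∀ m, |R.coeff m| ≤ (H : ℤ)}

/-- `P` is an integer point of the curve `F = 0` -/
def IsPoint (F : MvPolynomial (Fin 2) ℤ) (P : ℤ × ℤ) : Prop := MvPolynomial.eval ![P.1, P.2] F = 0

/-- the number of the `R` in the box for which the curve `φ + R = 0` has an integer point in `A` -/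
noncomputable def number (d : ℕ) (φ : MvPolynomial (Fin 2) ℤ) (A : Set (ℤ × ℤ)) (H : ℕ) : ℕ :=
  Set.ncard {R ∈ Box d H | ∃ P ∈ A, IsPoint (φ + R) P}

/-- the points with a coordinate of absolute value larger than `T` -/
def Large (T : ℕ) : Set (ℤ × ℤ) := {P | T < max P.1.natAbs P.2.natAbs}

open Pool.Agent.N656.LL Pool.Agent.R414.DN Pool.Agent.R414.DU

lemma V_eq (e : ℕ) (P : ℤ × ℤ) : V (e + 1) P = vol fun m => (mon (e + 1) P m : ℝ) := by
  unfold V vol K mon
  simp

lemma number_eq {e : ℕ} (he : 9 ≤ e) {φ : MvPolynomial (Fin 2) ℤ}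
    (hφ : φ.IsHomogeneous (e + 1)) (hirr : Irreducible (MvPolynomial.map (Int.castRingHom ℚ) φ))
    (A : Set (ℤ × ℤ)) (H : ℕ) :
    (number (e + 1) φ A H : ℝ) = (dat he hφ hirr).N A H := by
  classical
  have h1 := ncard_box e H (fun R => ∃ P ∈ A, IsPoint (φ + R) P)
  have h2 : number (e + 1) φ A H = Set.ncard {F : MvPolynomial (Fin 2) ℤ | F.totalDegree ≤ e ∧
      (∀ m, |F.coeff m| ≤ (H : ℤ)) ∧ ∃ P ∈ A, IsPoint (φ + F) P} := by
    unfold number
    congr 1
    ext R
    exact and_assoc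
  rw [h2, h1]
  unfold Data.N
  rw [← Set.ncard_coe_finset]
  congr 2
  ext a
  simp only [Finset.coe_filter, Set.mem_ofPred_eq]
  rfl

lemma two_eq {e : ℕ} (he : 9 ≤ e) {φ : MvPolynomial (Fin 2) ℤ}
    (hφ : φ.IsHomogeneous (e + 1)) (hirr : Irreducible (MvPolynomial.map (Int.castRingHom ℚ) φ))
    (H : ℕ) :
    (Set.ncard {R ∈ Box (e + 1) H | ∃ P Q, P ≠ Q ∧ IsPoint (φ + R) P ∧ IsPoint (φ + R) Q} : ℝ) =
      (dat he hφ hirr).N2 H := by
  classical
  have h1 := ncard_box e H (fun R => ∃ P Q, P ≠ Q ∧ IsPoint (φ + R) P ∧ IsPoint (φ + R) Q)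
  have h2 : Set.ncard {R ∈ Box (e + 1) H | ∃ P Q, P ≠ Q ∧ IsPoint (φ + R) P ∧
      IsPoint (φ + R) Q} = Set.ncard {F : MvPolynomial (Fin 2) ℤ | F.totalDegree ≤ e ∧
      (∀ m, |F.coeff m| ≤ (H : ℤ)) ∧ ∃ P Q, P ≠ Q ∧ IsPoint (φ + F) P ∧ IsPoint (φ + F) Q} := by
    congr 1
    ext R
    exact and_assoc
  rw [h2, h1]
  unfold Data.N2
  rw [← Set.ncard_coe_finset]
  congr 2
  ext a
  simp only [Finset.coe_filter, Set.mem_ofPred_eq]
  rfl

lemma v_eq {e : ℕ} (he : 9 ≤ e) {φ : MvPolynomial (Fin 2) ℤ}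
    (hφ : φ.IsHomogeneous (e + 1)) (hirr : Irreducible (MvPolynomial.map (Int.castRingHom ℚ) φ)) :
    (dat he hφ hirr).v = V (e + 1) := by
  funext P
  rw [V_eq]
  rfl

lemma wt_eq {e : ℕ} (he : 9 ≤ e) {φ : MvPolynomial (Fin 2) ℤ}
    (hφ : φ.IsHomogeneous (e + 1)) (hirr : Irreducible (MvPolynomial.map (Int.castRingHom ℚ) φ))
    (A : Set (ℤ × ℤ)) : (dat he hφ hirr).wt A = ∑' P : A, V (e + 1) P := by
  unfold Data.wt
  rw [v_eq, _root_.tsum_subtype]

lemma wt_univ {e : ℕ} (he : 9 ≤ e) {φ : MvPolynomial (Fin 2) ℤ}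
    (hφ : φ.IsHomogeneous (e + 1)) (hirr : Irreducible (MvPolynomial.map (Int.castRingHom ℚ) φ)) :
    (dat he hφ hirr).wt Set.univ = ∑' P, V (e + 1) P := by
  unfold Data.wt
  rw [v_eq, Set.indicator_univ]

theorem result (d : ℕ) (hd : 10 ≤ d) :
    -- the law
    (∀ P, 0 < V d P) ∧ Summable (V d) ∧
    (∃ c C : ℝ, 0 < c ∧ ∀ T : ℕ, 1 ≤ T →
      c / (T : ℝ) ^ (d - 3) ≤ μ d (Large T) ∧ μ d (Large T) ≤ C / (T : ℝ) ^ (d - 3)) ∧
    ∀ φ : MvPolynomial (Fin 2) ℤ, φ.IsHomogeneous d →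
      Irreducible (MvPolynomial.map (Int.castRingHom ℚ) φ) →
      -- the number of curves with an integer point
      Tendsto (fun H : ℕ => (number d φ Set.univ H : ℝ) / (H : ℝ) ^ (d * (d + 1) / 2 - 1)) atTop
        (𝓝 (∑' P, V d P)) ∧
      -- almost all of them have only one integer point
      Tendsto (fun H : ℕ => (Set.ncard {R ∈ Box d H |
          ∃ P Q, P ≠ Q ∧ IsPoint (φ + R) P ∧ IsPoint (φ + R) Q} : ℝ) / number d φ Set.univ H)
        atTop (𝓝 0) ∧
      -- the law of the integer point, uniformly for all sets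
      (∀ ε : ℝ, 0 < ε → ∃ H₀ : ℕ, ∀ H : ℕ, H₀ ≤ H → ∀ A : Set (ℤ × ℤ),
        |(number d φ A H : ℝ) / number d φ Set.univ H - μ d A| ≤ ε) ∧
      -- bounds for the integer points of almost all curves with an integer point
      (∀ B : ℕ → ℕ, Tendsto (fun H : ℕ => (number d φ (Large (B H)) H : ℝ) /
        number d φ Set.univ H) atTop (𝓝 0) ↔ Tendsto B atTop atTop) := by
  obtain ⟨e, rfl⟩ : ∃ e, d = e + 1 := ⟨d - 1, by omega⟩
  have he : 9 ≤ e := by omega
  have hpos : ∀ P, 0 < V (e + 1) P := fun P => by rw [V_eq]; exact vol_pos _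
  obtain ⟨φ₀, hφ₀, hirr₀⟩ := exists_form (by omega : 1 ≤ e + 1)
  refine ⟨hpos, ?_, ?_, ?_⟩
  · rw [← v_eq he hφ₀ hirr₀]
    exact (dat he hφ₀ hirr₀).summable
  · obtain ⟨D, hD⟩ : ∃ D, D = dat he hφ₀ hirr₀ := ⟨_, rfl⟩
    obtain ⟨c, hc⟩ : ∃ c, c = D.wt Set.univ := ⟨_, rfl⟩
    have hc0 : 0 < c := by rw [hc]; exact D.wt_univ_pos
    have hμ : ∀ T, μ (e + 1) (Large T) = D.wt (Data.big T) / c := by
      intro T
      unfold μ
      rw [hc, hD, wt_eq, wt_univ]
      rfl
    have hK1 := K1_pos e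
    have e3 : e + 1 - 3 = e - 2 := by omega
    refine ⟨1 / (2 * K1 e * c), D.K * 2 ^ D.n / c, by positivity, fun T hT => ?_⟩
    have hT' : (1 : ℝ) ≤ T := by exact_mod_cast hT
    have hT0 : (0 : ℝ) < T := by linarith
    rw [hμ, e3]
    constructor
    · have h1 := wt_lower he hφ₀ hirr₀ hT
      rw [← hD] at h1
      calc 1 / (2 * K1 e * c) / (T : ℝ) ^ (e - 2) = 1 / (2 * K1 e * (T : ℝ) ^ (e - 2)) / c := by
            field_simp
        _ ≤ _ := by gcongr
    · have h1 := D.wt_tail T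
      have hk : D.k = e - 2 := by rw [hD]; rfl
      have hK := D.hK
      rw [hk] at h1
      calc D.wt (Data.big T) / c ≤ D.K * 2 ^ D.n / ((T : ℝ) + 1) ^ (e - 2) / c := by gcongr
        _ ≤ D.K * 2 ^ D.n / (T : ℝ) ^ (e - 2) / c := by
            gcongr
            linarith
        _ = _ := by field_simp
  · intro φ hφ hirr
    have hn : (dat he hφ hirr).n = (e + 1) * (e + 1 + 1) / 2 - 1 :=
      card_J' (by omega : 1 ≤ e + 1)
    refine ⟨?_, ?_, ?_, ?_⟩
    · have h1 := (dat he hφ hirr).lim_set Set.univ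
      rw [wt_univ, hn] at h1
      simp only [number_eq he hφ hirr]
      exact h1
    · simp only [number_eq he hφ hirr, two_eq he hφ hirr]
      exact (dat he hφ hirr).two_ratio
    · intro ε hε
      have h1 := (dat he hφ hirr).ratio hε
      rw [eventually_atTop] at h1
      obtain ⟨H₀, h2⟩ := h1
      refine ⟨H₀, fun H hH A => ?_⟩
      have h3 := h2 H hH A
      unfold μ
      rw [number_eq he hφ hirr, number_eq he hφ hirr, ← wt_eq he hφ hirr, ← wt_univ he hφ hirr]
      exact h3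
    · intro B
      simp only [number_eq he hφ hirr]
      exact (dat he hφ hirr).bound_iff B

end Pool.Agent.Results.MP_821da1_nt.LimitLaw
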