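import Pool.Agent.N656.PC.Irr
import Pool.Agent.N656.PC.Blk
import Pool.Agent.N415.PC.Red
import Pool.Agent.N498.PC.Gah

/-!
# The limit law of the integer point of a random plane curve

Let `d ≥ 7`, let `M = (d + 1)(d + 2) / 2`, and consider all polynomials `F` in `ℤ[x, y]` of total
degree at most `d` with coefficients in `[-H, H]`. As `H → ∞` the number of those with an integer
zero is `(∑ V(P) + o(1)) H ^ (M - 1)`, almost all of them are absolutely irreducible, almost all of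
them have exactly one integer zero, and the law of this zero converges in total variation to an
explicit law `μ` on `ℤ ^ 2`. The tail of `μ` is of exact order `T ^ (-(d - 2))`. A function `B(H)`
bounds the integer zeros of almost all `F` with an integer zero if and only if it tends to infinity.
-/

set_option autoImplicit false

open MeasureTheory Filter Topology

namespace Pool.Agent.Results.MP_821da1_nt.LimitLawAll

/-- the pairs `(i, j)` with `1 ≤ i + j ≤ d` -/
abbrev Exponents (d : ℕ) : Type :=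
  {m : Fin (d + 1) × Fin (d + 1) // 1 ≤ (m.1 : ℕ) + m.2 ∧ (m.1 : ℕ) + m.2 < d + 1}

/-- `V(x, y)`: the volume of the set of all `(u_ij)` with entries in `[-1, 1]`, indexed by the
exponents `(i, j)` with `1 ≤ i + j ≤ d`, such that `|∑ u_ij x ^ i y ^ j| ≤ 1` -/
noncomputable def V (d : ℕ) (P : ℤ × ℤ) : ℝ :=
  volume.real {u : Exponents d → ℝ | (∀ m, |u m| ≤ 1) ∧
    |∑ m, u m * ((P.1 : ℝ) ^ (m.1.1 : ℕ) * (P.2 : ℝ) ^ (m.1.2 : ℕ))| ≤ 1}

/-- the probability measure on `ℤ × ℤ` with weights proportional to `V` -/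
noncomputable def μ (d : ℕ) (A : Set (ℤ × ℤ)) : ℝ := (∑' P : A, V d P) / ∑' P, V d P

/-- the polynomials of total degree at most `d` with coefficients in `[-H, H]` -/
def Box (d H : ℕ) : Set (MvPolynomial (Fin 2) ℤ) :=
  {F | F.totalDegree ≤ d ∧ ∀ m, |F.coeff m| ≤ (H : ℤ)}

/-- `P` is an integer point of the curve `F = 0` -/
def IsPoint (F : MvPolynomial (Fin 2) ℤ) (P : ℤ × ℤ) : Prop := MvPolynomial.eval ![P.1, P.2] F = 0

/-- the number of the `F` in the box for which the curve `F = 0` has an integer point in `A` -/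
noncomputable def number (d : ℕ) (A : Set (ℤ × ℤ)) (H : ℕ) : ℕ :=
  Set.ncard {F ∈ Box d H | ∃ P ∈ A, IsPoint F P}

/-- the points with a coordinate of absolute value larger than `T` -/
def Large (T : ℕ) : Set (ℤ × ℤ) := {P | T < max P.1.natAbs P.2.natAbs}

open Pool.Agent.N656.LL Pool.Agent.R414.DN Pool.Agent.R414.DU Pool.Agent.N656.PC

lemma hRED : S_RED := Pool.Agent.N415.PC.t_RED

lemma hGAH : S_GAH := Pool.Agent.N498.PC.t_GAH t_BLK

lemma V_eq (d : ℕ) (P : ℤ × ℤ) : V d P = vol fun m => (mon (d + 1) P m : ℝ) := by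
  unfold V vol K mon
  simp

lemma number_eq {d : ℕ} (hd : 7 ≤ d) (A : Set (ℤ × ℤ)) (H : ℕ) :
    (number d A H : ℝ) = (dat0 hd hRED hGAH).N A H := by
  classical
  have h1 := ncard_box d H (fun F => ∃ P ∈ A, IsPoint F P)
  have h2 : number d A H = Set.ncard {F : MvPolynomial (Fin 2) ℤ | F.totalDegree ≤ d ∧
      (∀ m, |F.coeff m| ≤ (H : ℤ)) ∧ ∃ P ∈ A, IsPoint F P} := by
    unfold number
    congr 1
    ext R
    exact and_assoc
  rw [h2, h1]
  unfold Data.N IsPoint
  rw [← Set.ncard_coe_finset]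
  congr 2
  ext a
  simp only [Finset.coe_filter, Set.mem_ofPred_eq, eval_poly]
  rfl

lemma two_eq {d : ℕ} (hd : 7 ≤ d) (H : ℕ) :
    (Set.ncard {F ∈ Box d H | ∃ P Q, P ≠ Q ∧ IsPoint F P ∧ IsPoint F Q} : ℝ) =
      (dat0 hd hRED hGAH).N2 H := by
  classical
  have h1 := ncard_box d H (fun F => ∃ P Q, P ≠ Q ∧ IsPoint F P ∧ IsPoint F Q)
  have h2 : Set.ncard {F ∈ Box d H | ∃ P Q, P ≠ Q ∧ IsPoint F P ∧ IsPoint F Q} =
      Set.ncard {F : MvPolynomial (Fin 2) ℤ | F.totalDegree ≤ d ∧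
      (∀ m, |F.coeff m| ≤ (H : ℤ)) ∧ ∃ P Q, P ≠ Q ∧ IsPoint F P ∧ IsPoint F Q} := by
    congr 1
    ext R
    exact and_assoc
  rw [h2, h1]
  unfold Data.N2 IsPoint
  rw [← Set.ncard_coe_finset]
  congr 2
  ext a
  simp only [Finset.coe_filter, Set.mem_ofPred_eq, eval_poly]
  rfl

lemma irr_eq (d H : ℕ) :
    (Set.ncard {F ∈ Box d H | (∃ P, IsPoint F P) ∧
      ¬ Irreducible (MvPolynomial.map (Int.castRingHom (AlgebraicClosure ℚ)) F)} : ℝ) =
      NR d H := by
  classical
  have h1 := ncard_box d H (fun F => (∃ P, IsPoint F P) ∧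
      ¬ Irreducible (MvPolynomial.map (Int.castRingHom (AlgebraicClosure ℚ)) F))
  have h2 : Set.ncard {F ∈ Box d H | (∃ P, IsPoint F P) ∧
      ¬ Irreducible (MvPolynomial.map (Int.castRingHom (AlgebraicClosure ℚ)) F)} =
      Set.ncard {F : MvPolynomial (Fin 2) ℤ | F.totalDegree ≤ d ∧
      (∀ m, |F.coeff m| ≤ (H : ℤ)) ∧ (∃ P, IsPoint F P) ∧
      ¬ Irreducible (MvPolynomial.map (Int.castRingHom (AlgebraicClosure ℚ)) F)} := by
    congr 1
    ext R
    exact and_assoc
  rw [h2, h1]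
  unfold NR IsPoint
  rw [← Set.ncard_coe_finset]
  congr 2
  ext a
  simp only [Finset.coe_filter, Set.mem_ofPred_eq, eval_poly]

lemma v_eq {d : ℕ} (hd : 7 ≤ d) :
    (dat0 hd hRED hGAH).v = V d := by
  funext P
  rw [V_eq]
  rfl

lemma wt_eq {d : ℕ} (hd : 7 ≤ d) (A : Set (ℤ × ℤ)) :
    (dat0 hd hRED hGAH).wt A = ∑' P : A, V d P := by
  unfold Data.wt
  rw [v_eq, _root_.tsum_subtype]

lemma wt_univ {d : ℕ} (hd : 7 ≤ d) :
    (dat0 hd hRED hGAH).wt Set.univ = ∑' P, V d P := by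
  unfold Data.wt
  rw [v_eq, Set.indicator_univ]

theorem result (d : ℕ) (hd : 7 ≤ d) :
    -- the law
    (∀ P, 0 < V d P) ∧ Summable (V d) ∧
    (∃ c C : ℝ, 0 < c ∧ ∀ T : ℕ, 1 ≤ T →
      c / (T : ℝ) ^ (d - 2) ≤ μ d (Large T) ∧ μ d (Large T) ≤ C / (T : ℝ) ^ (d - 2)) ∧
    -- the number of curves with an integer point
    Tendsto (fun H : ℕ => (number d Set.univ H : ℝ) / (H : ℝ) ^ ((d + 1) * (d + 2) / 2 - 1)) atTop
      (𝓝 (∑' P, V d P)) ∧
    -- almost all of them are absolutely irreducible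
    Tendsto (fun H : ℕ => (Set.ncard {F ∈ Box d H | (∃ P, IsPoint F P) ∧
        ¬ Irreducible (MvPolynomial.map (Int.castRingHom (AlgebraicClosure ℚ)) F)} : ℝ) /
      number d Set.univ H) atTop (𝓝 0) ∧
    -- almost all of them have only one integer point
    Tendsto (fun H : ℕ => (Set.ncard {F ∈ Box d H |
        ∃ P Q, P ≠ Q ∧ IsPoint F P ∧ IsPoint F Q} : ℝ) / number d Set.univ H) atTop (𝓝 0) ∧
    -- the law of the integer point, uniformly for all sets
    (∀ ε : ℝ, 0 < ε → ∃ H₀ : ℕ, ∀ H : ℕ, H₀ ≤ H → ∀ A : Set (ℤ × ℤ),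
      |(number d A H : ℝ) / number d Set.univ H - μ d A| ≤ ε) ∧
    -- bounds for the integer points of almost all curves with an integer point
    (∀ B : ℕ → ℕ, Tendsto (fun H : ℕ => (number d (Large (B H)) H : ℝ) /
      number d Set.univ H) atTop (𝓝 0) ↔ Tendsto B atTop atTop) := by
  have hpos : ∀ P, 0 < V d P := fun P => by rw [V_eq]; exact vol_pos _
  obtain ⟨D, hD⟩ : ∃ D, D = dat0 hd hRED hGAH := ⟨_, rfl⟩
  have hn : D.n = (d + 1) * (d + 2) / 2 - 1 := by
    rw [hD]
    exact card_J' (by omega : 1 ≤ d + 1)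
  have hnum : ∀ A H, (number d A H : ℝ) = D.N A H := by
    intro A H
    rw [hD]
    exact number_eq hd A H
  have hwt : ∀ A, D.wt A = ∑' P : A, V d P := by
    intro A
    rw [hD]
    exact wt_eq hd A
  have hwtu : D.wt Set.univ = ∑' P, V d P := by
    rw [hD]
    exact wt_univ hd
  refine ⟨hpos, ?_, ?_, ?_, ?_, ?_, ?_, ?_⟩
  · rw [← v_eq hd]
    exact (dat0 hd hRED hGAH).summable
  · obtain ⟨c, hc⟩ : ∃ c, c = D.wt Set.univ := ⟨_, rfl⟩
    have hc0 : 0 < c := by rw [hc]; exact D.wt_univ_pos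
    have hμ : ∀ T, μ d (Large T) = D.wt (Data.big T) / c := by
      intro T
      unfold μ
      rw [hc, hwt, hwtu]
      rfl
    have hK1 := K1_pos d
    refine ⟨1 / (2 * K1 d * c), D.K * 2 ^ D.n / c, by positivity, fun T hT => ?_⟩
    have hT' : (1 : ℝ) ≤ T := by exact_mod_cast hT
    have hT0 : (0 : ℝ) < T := by linarith
    rw [hμ]
    constructor
    · have h1 := wt_lower0 hd hRED hGAH hT
      rw [← hD] at h1
      calc 1 / (2 * K1 d * c) / (T : ℝ) ^ (d - 2) = 1 / (2 * K1 d * (T : ℝ) ^ (d - 2)) / c := by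
            field_simp
        _ ≤ _ := by gcongr
    · have h1 := D.wt_tail T
      have hk : D.k = d - 2 := by rw [hD]; rfl
      have hK := D.hK
      rw [hk] at h1
      calc D.wt (Data.big T) / c ≤ D.K * 2 ^ D.n / ((T : ℝ) + 1) ^ (d - 2) / c := by gcongr
        _ ≤ D.K * 2 ^ D.n / (T : ℝ) ^ (d - 2) / c := by
            gcongr
            linarith
        _ = _ := by field_simp
  · have h1 := D.lim_set Set.univ
    rw [hwtu, hn] at h1
    simp only [hnum]
    exact h1
  · simp only [hnum, irr_eq]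
    have h1 := irr_rare hd hRED hGAH
    have h2 := D.lim_set Set.univ
    have h3 : MM d - 1 = D.n := by rw [hn, MM_eq]
    rw [h3] at h1
    have h4 := h1.div h2 D.wt_univ_pos.ne'
    rw [zero_div] at h4
    refine h4.congr' ?_
    filter_upwards [eventually_ge_atTop 1] with H hH1
    have hX : (0 : ℝ) < (H : ℝ) ^ D.n := by
      have : (0 : ℝ) < H := by exact_mod_cast hH1
      positivity
    simp only [Pi.div_apply]
    rw [div_div_div_cancel_right₀ hX.ne']
  · simp only [hnum]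
    have h1 := D.two_ratio
    refine h1.congr fun H => ?_
    rw [two_eq hd, hD]
  · intro ε hε
    have h1 := D.ratio hε
    rw [eventually_atTop] at h1
    obtain ⟨H₀, h2⟩ := h1
    refine ⟨H₀, fun H hH A => ?_⟩
    have h3 := h2 H hH A
    unfold μ
    rw [hnum, hnum, ← hwt, ← hwtu]
    exact h3
  · intro B
    simp only [hnum]
    exact D.bound_iff B

end Pool.Agent.Results.MP_821da1_nt.LimitLawAll
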