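import Pool.Agent.N656.SE.Asm

/-!
# The limit law of the integer points of random superelliptic curves

Let `m ≥ 2` and let `d` be a multiple of `m` with `d - d / m ≥ 4`. As `H → ∞`, the number of the
curves `y ^ m = x ^ d + a_(d-1) x ^ (d-1) + ... + a_0` with coefficients in `[-H, H]` that have an
integer point is `(∑ W(x) + o(1)) H ^ (d - 1 + 1 / m)`, almost all of them have integer points over
only one abscissa, and the law of this abscissa converges in total variation to the probability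
measure `μ` on `ℤ` with weights proportional to `W`. The tail of `μ` is of exact order
`T ^ (1 - (d - 1) (1 - 1 / m))`. A function `B(H)` bounds the abscissas of the integer points of
almost all curves with an integer point if and only if it tends to infinity.
-/

set_option autoImplicit false

open MeasureTheory Filter Topology

namespace Pool.Agent.Results.MP_821da1_nt.SuperellipticLaw

/-- the value at `x` of the polynomial `X ^ d + a_(d-1) X ^ (d-1) + ... + a_0` -/
def f (d : ℕ) (a : Fin d → ℤ) (x : ℤ) : ℤ := x ^ d + ∑ i, a i * x ^ (i : ℕ)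

/-- the vectors of coefficients in `[-H, H]` -/
def Box (d H : ℕ) : Set (Fin d → ℤ) := {a | ∀ i, |a i| ≤ (H : ℤ)}

/-- the curve `y ^ m = X ^ d + a_(d-1) X ^ (d-1) + ... + a_0` has an integer point over `x` -/
def HasPoint (m d : ℕ) (a : Fin d → ℤ) (x : ℤ) : Prop := ∃ y : ℤ, y ^ m = f d a x

/-- the number of curves with coefficients in `[-H, H]` with an integer point over some `x` in `A` -/
noncomputable def number (m d : ℕ) (A : Set ℤ) (H : ℕ) : ℕ :=
  Set.ncard {a ∈ Box d H | ∃ x ∈ A, HasPoint m d a x}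

/-- the real `m`-th root of `t` if `m` is odd, the nonnegative `m`-th root of `max t 0` if `m` is
even -/
noncomputable def root (m : ℕ) (t : ℝ) : ℝ :=
  max t 0 ^ (1 / (m : ℝ)) - if Even m then 0 else max (-t) 0 ^ (1 / (m : ℝ))

/-- the integral of `root (l + 1) - root (l - 1)` over all `u` in `[-1, 1] ^ (d - 1)`, where
`l = u_1 x + ... + u_(d-1) x ^ (d - 1)` -/
noncomputable def W (m d : ℕ) (x : ℤ) : ℝ :=
  ∫ u in {u : Fin (d - 1) → ℝ | ∀ i, |u i| ≤ 1},
    (root m (∑ i, u i * (x : ℝ) ^ ((i : ℕ) + 1) + 1) -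
      root m (∑ i, u i * (x : ℝ) ^ ((i : ℕ) + 1) - 1))

/-- the probability measure on `ℤ` with weights proportional to `W` -/
noncomputable def μ (m d : ℕ) (A : Set ℤ) : ℝ := (∑' x : A, W m d x) / ∑' x, W m d x

/-- the integers of absolute value larger than `T` -/
def Large (T : ℕ) : Set ℤ := {x | T < x.natAbs}

open Pool.Agent.N656.SE Pool.Agent.R414.DN

lemma W_eq (m n : ℕ) : W m (n + 1) = Pool.Agent.N656.SE.W m n := by
  funext x
  unfold W Pool.Agent.N656.SE.W Phi root rho pr ell cube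
  rfl

lemma number_eq {m n k : ℕ} (hm : 2 ≤ m) (hk : 1 ≤ k) (hn : n + 1 = m * k)
    (hmk : 4 ≤ (m - 1) * k) (A : Set ℤ) (H : ℕ) :
    (number m (n + 1) A H : ℝ) = (dat hm hk hn hmk).N A H := by
  unfold number GData.N
  congr 2
  ext a
  show (a ∈ Box (n + 1) H ∧ _) ↔ (a ∈ ibox (Fin (n + 1)) H ∧ _)
  rw [mem_ibox]
  rfl

lemma two_eq {m n k : ℕ} (hm : 2 ≤ m) (hk : 1 ≤ k) (hn : n + 1 = m * k)
    (hmk : 4 ≤ (m - 1) * k) (H : ℕ) :
    (Set.ncard {a ∈ Box (n + 1) H | ∃ x x' : ℤ, x ≠ x' ∧ HasPoint m (n + 1) a x ∧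
      HasPoint m (n + 1) a x'} : ℝ) = (dat hm hk hn hmk).N2 H := by
  unfold GData.N2
  congr 2
  ext a
  show (a ∈ Box (n + 1) H ∧ _) ↔ (a ∈ ibox (Fin (n + 1)) H ∧ _)
  rw [mem_ibox]
  rfl

lemma wt_eq {m n k : ℕ} (hm : 2 ≤ m) (hk : 1 ≤ k) (hn : n + 1 = m * k)
    (hmk : 4 ≤ (m - 1) * k) (A : Set ℤ) :
    (dat hm hk hn hmk).wt A = ∑' x : A, W m (n + 1) x := by
  unfold GData.wt
  rw [W_eq, _root_.tsum_subtype]
  rfl

lemma wt_univ {m n k : ℕ} (hm : 2 ≤ m) (hk : 1 ≤ k) (hn : n + 1 = m * k)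
    (hmk : 4 ≤ (m - 1) * k) :
    (dat hm hk hn hmk).wt Set.univ = ∑' x, W m (n + 1) x := by
  unfold GData.wt
  rw [W_eq, Set.indicator_univ]
  rfl

theorem result (m k d : ℕ) (hm : 2 ≤ m) (hd : d = m * k) (hmk : 4 ≤ d - k) :
    -- the law
    (∀ x, 0 < W m d x) ∧ Summable (W m d) ∧
    (∃ c C : ℝ, 0 < c ∧ ∀ T : ℕ, 1 ≤ T →
      c * (T : ℝ) ^ (1 - ((d : ℝ) - 1) * (1 - 1 / m)) ≤ μ m d (Large T) ∧
      μ m d (Large T) ≤ C * (T : ℝ) ^ (1 - ((d : ℝ) - 1) * (1 - 1 / m))) ∧
    -- the number of curves with an integer point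
    Tendsto (fun H : ℕ => (number m d Set.univ H : ℝ) / (H : ℝ) ^ ((d : ℝ) - 1 + 1 / m)) atTop
      (𝓝 (∑' x, W m d x)) ∧
    -- almost all of them have integer points over one abscissa only
    Tendsto (fun H : ℕ => (Set.ncard {a ∈ Box d H | ∃ x x' : ℤ, x ≠ x' ∧ HasPoint m d a x ∧
      HasPoint m d a x'} : ℝ) / number m d Set.univ H) atTop (𝓝 0) ∧
    -- the law of the abscissa, uniformly for all sets
    (∀ ε : ℝ, 0 < ε → ∃ H₀ : ℕ, ∀ H : ℕ, H₀ ≤ H → ∀ A : Set ℤ,
      |(number m d A H : ℝ) / number m d Set.univ H - μ m d A| ≤ ε) ∧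
    -- bounds for the integer points of almost all curves with an integer point
    (∀ B : ℕ → ℕ, Tendsto (fun H : ℕ => (number m d (Large (B H)) H : ℝ) /
      number m d Set.univ H) atTop (𝓝 0) ↔ Tendsto B atTop atTop) := by
  have hmk' : 4 ≤ (m - 1) * k := by
    rw [hd] at hmk
    rwa [Nat.sub_mul, one_mul]
  have hk : 1 ≤ k := by
    by_contra h
    rw [not_le, Nat.lt_one_iff] at h
    rw [h] at hmk'
    omega
  obtain ⟨n, rfl⟩ : ∃ n, d = n + 1 := ⟨d - 1, by omega⟩
  have hm1 : 1 ≤ m := by omega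
  obtain ⟨D, hD⟩ : ∃ D, D = dat hm hk hd hmk' := ⟨_, rfl⟩
  have hne : Nonempty D.β := by rw [hD]; exact ⟨(0 : ℤ)⟩
  have hse : ((n + 1 : ℕ) : ℝ) - 1 = n := by push_cast; ring
  have hs := se_ge hm hd hmk'
  rw [hse]
  have hse2 : (1 : ℝ) - (n : ℝ) * (1 - 1 / m) = 1 - se m n := rfl
  rw [hse2]
  obtain ⟨w, hw⟩ : ∃ w, w = D.wt Set.univ := ⟨_, rfl⟩
  have hw0 : 0 < w := by
    rw [hw]
    exact D.wt_pos (Set.mem_univ (Classical.arbitrary D.β))
  have hμ : ∀ T, μ m (n + 1) (Large T) = D.wt (D.big T) / w := by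
    intro T
    rw [hw, hD]
    show μ m (n + 1) (Large T) =
      (dat hm hk hd hmk').wt (Large T) / (dat hm hk hd hmk').wt Set.univ
    rw [wt_univ, wt_eq hm hk hd hmk' (Large T)]
    rfl
  refine ⟨fun x => by rw [W_eq]; exact W_pos hm1 n x, ?_, ?_, ?_, ?_, ?_, ?_⟩
  · rw [W_eq]
    exact (dat hm hk hd hmk').summable
  · obtain ⟨c, hc, hlow⟩ := W_lower (m := m) (n := n) hm1
    obtain ⟨K, hK⟩ : ∃ K, K = (tail hm hk hd hmk').choose := ⟨_, rfl⟩
    have hK0 : 0 < K := by rw [hK]; exact (tail hm hk hd hmk').choose_spec.1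
    refine ⟨c * 2 ^ (-se m n) / w, K / w, by positivity, fun T hT => ?_⟩
    have hT' : (1 : ℝ) ≤ T := by exact_mod_cast hT
    have hT0 : (0 : ℝ) < T := by linarith
    rw [hμ]
    constructor
    · -- the integers in `(T, 2 T]`
      have h1 : ∑ x ∈ (Finset.Ioc T (2 * T)).image (fun j : ℕ => (j : ℤ)),
          Pool.Agent.N656.SE.W m n x ≤ D.wt (D.big T) := by
        have h2 : D.wt (D.big T) = ∑' x : ℤ, (Large T).indicator (Pool.Agent.N656.SE.W m n) x := by
          rw [hD]
          rfl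
        rw [h2]
        have h3 : Summable ((Large T).indicator (Pool.Agent.N656.SE.W m n)) := by
          have h4 := (dat hm hk hd hmk').summable
          exact Summable.indicator h4 _
        refine le_trans (le_of_eq ?_) (h3.sum_le_tsum
          ((Finset.Ioc T (2 * T)).image (fun j : ℕ => (j : ℤ)))
          (fun x _ => Set.indicator_nonneg (fun x _ => (W_pos hm1 n x).le) x))
        refine Finset.sum_congr rfl fun x hx => ?_
        rw [Set.indicator_of_mem]
        rw [Finset.mem_image] at hx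
        obtain ⟨j, hj, rfl⟩ := hx
        rw [Finset.mem_Ioc] at hj
        show T < ((j : ℤ)).natAbs
        rw [Int.natAbs_natCast]
        exact hj.1
      have h2 : ∀ x ∈ (Finset.Ioc T (2 * T)).image (fun j : ℕ => (j : ℤ)),
          c * (2 * (T : ℝ)) ^ (-se m n) ≤ Pool.Agent.N656.SE.W m n x := by
        intro x hx
        rw [Finset.mem_image] at hx
        obtain ⟨j, hj, rfl⟩ := hx
        rw [Finset.mem_Ioc] at hj
        have hj0 : (0 : ℝ) < j := by
          have : 0 < j := by omega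
          exact_mod_cast this
        have hj2 : (j : ℝ) ≤ 2 * T := by exact_mod_cast hj.2
        refine le_trans ?_ (hlow j (by
          have : 0 < j := by omega
          exact_mod_cast this.ne'))
        rw [Int.cast_natCast, abs_of_pos hj0]
        apply mul_le_mul_of_nonneg_left _ hc.le
        exact Real.rpow_le_rpow_of_nonpos hj0 hj2 (by linarith)
      have h3 := Finset.sum_le_sum h2
      rw [Finset.sum_const, Finset.card_image_of_injective _ Nat.cast_injective, Nat.card_Ioc,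
        nsmul_eq_mul] at h3
      have h4 : (((2 * T - T : ℕ)) : ℝ) = T := by
        have : 2 * T - T = T := by omega
        rw [this]
      rw [h4] at h3
      have h5 : c * 2 ^ (-se m n) / w * (T : ℝ) ^ (1 - se m n) =
          (T : ℝ) * (c * (2 * (T : ℝ)) ^ (-se m n)) / w := by
        rw [Real.mul_rpow (by norm_num) hT0.le, sub_eq_add_neg, Real.rpow_add hT0,
          Real.rpow_one]
        ring
      rw [h5]
      have h6 := h3.trans h1
      gcongr
    · have h1 : D.wt (D.big T) ≤ K * ((T : ℝ) + 1) ^ (1 - se m n) := by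
        have h2 := D.wt_tail T
        rw [hD] at h2 ⊢
        rw [hK]
        exact h2
      calc D.wt (D.big T) / w ≤ K * ((T : ℝ) + 1) ^ (1 - se m n) / w := by gcongr
        _ ≤ K * (T : ℝ) ^ (1 - se m n) / w := by
            have h3 : ((T : ℝ) + 1) ^ (1 - se m n) ≤ (T : ℝ) ^ (1 - se m n) :=
              Real.rpow_le_rpow_of_nonpos hT0 (by linarith) (by linarith)
            gcongr
        _ = _ := by ring
  · have h1 := (dat hm hk hd hmk').lim_set Set.univ
    rw [wt_univ] at h1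
    simp only [number_eq hm hk hd hmk']
    refine h1.congr' ?_
    filter_upwards [eventually_ge_atTop 1] with H hH
    have hH0 : (0 : ℝ) < H := by exact_mod_cast hH
    congr 1
    show (H : ℝ) ^ n * (H : ℝ) ^ (1 / (m : ℝ)) = _
    rw [Real.rpow_add hH0, Real.rpow_natCast]
  · simp only [number_eq hm hk hd hmk', two_eq hm hk hd hmk']
    rw [hD] at hne
    exact (dat hm hk hd hmk').two_ratio
  · intro ε hε
    rw [hD] at hne
    have h1 := (dat hm hk hd hmk').ratio hε
    rw [eventually_atTop] at h1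
    obtain ⟨H₀, h2⟩ := h1
    refine ⟨H₀, fun H hH A => ?_⟩
    have h3 := h2 H hH A
    unfold μ
    rw [number_eq hm hk hd hmk', number_eq hm hk hd hmk', ← wt_eq hm hk hd hmk',
      ← wt_univ hm hk hd hmk']
    exact h3
  · intro B
    simp only [number_eq hm hk hd hmk']
    refine (dat hm hk hd hmk').bound_iff (fun T => ?_) B
    refine ⟨((T + 1 : ℕ) : ℤ), ?_⟩
    show T < (((T + 1 : ℕ) : ℤ)).natAbs
    rw [Int.natAbs_natCast]
    exact Nat.lt_succ_self T

end Pool.Agent.Results.MP_821da1_nt.SuperellipticLaw
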